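import Pool.Agent.H70.GS.Targets

/-!
MP_0f8dca_lc (coarse levels), module FIN: the final result.
-/

set_option autoImplicit false

namespace Pool.Agent.H4.GS.FIN

open Finset Filter Pool.Agent.H6.NB Pool.Agent.H70.OQ Pool.Agent.H70.GS

theorem short_mono (Q : QAlg) (m m' : ℕ) (h : m ≤ m') (hQ : Q.Short m) : Q.Short m' :=
  fun i w hw => (hQ i w hw).trans h

theorem sq_le (g : ℕ) : (g + 1) * (g + 1) ≤ 3 * 2 ^ g + 1 := by
  rcases Nat.lt_or_ge g 2 with h | h
  · interval_cases g <;> norm_num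
  · induction g, h using Nat.le_induction with
    | base => norm_num
    | succ g hg ih =>
      rw [pow_succ]
      nlinarith

theorem lt_two_pow_gam (n : ℕ) : n < 2 ^ gam n := by
  have h1 : 3 * n + 1 < (gam n + 1) * (gam n + 1) := Nat.lt_succ_sqrt _
  have h2 := sq_le (gam n)
  omega

theorem bnd (G c : ℕ) (hG : 2 ≤ G) : G ^ c + c ≤ G ^ (c + 1) := by
  have h1 : c < G ^ c := Nat.lt_pow_self hG
  have h2 : G ^ c * 2 ≤ G ^ c * G := Nat.mul_le_mul_left _ hG
  rw [pow_succ]
  omega

theorem bnd2 (G c i cS l : ℕ) (hG : 2 ≤ G) (hl : l ≤ G ^ (cS + 1)) :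
    2 * l + 2 * i + (l ^ c + c + 1) ^ 2 + 2 < G ^ (2 * ((cS + 1) * (c + 1)) + i + cS + 8) := by
  set E := (cS + 1) * (c + 1) with hE
  have hG0 : 0 < G := by omega
  have hmono : ∀ {i j : ℕ}, i ≤ j → G ^ i ≤ G ^ j := fun h => Nat.pow_le_pow_right hG0 h
  have hsucc : ∀ i, 2 * G ^ i ≤ G ^ (i + 1) := by
    intro i
    rw [pow_succ, mul_comm]
    exact Nat.mul_le_mul_left _ hG
  have h1 : l ^ c ≤ G ^ E := by
    calc l ^ c ≤ (G ^ (cS + 1)) ^ c := Nat.pow_le_pow_left hl c
      _ = G ^ ((cS + 1) * c) := by rw [← pow_mul]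
      _ ≤ G ^ E := hmono (Nat.mul_le_mul_left _ (by omega))
  have h2 : c + 1 ≤ G ^ E := by
    have h3 : c + 1 < G ^ (c + 1) := Nat.lt_pow_self hG
    have h4 : G ^ (c + 1) ≤ G ^ E := hmono (Nat.le_mul_of_pos_left _ (by omega))
    omega
  have h3 : (l ^ c + c + 1) ^ 2 ≤ G ^ (2 * E + 2) := by
    have h4 : l ^ c + c + 1 ≤ G ^ (E + 1) := by
      have := hsucc E
      omega
    calc (l ^ c + c + 1) ^ 2 ≤ (G ^ (E + 1)) ^ 2 := Nat.pow_le_pow_left h4 2
      _ = G ^ (2 * E + 2) := by rw [← pow_mul]; congr 1; ring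
  set Z := G ^ (2 * E + i + cS + 4) with hZ
  have hZ1 : 1 ≤ Z := Nat.one_le_pow _ _ hG0
  have e1 : 2 * l ≤ Z := by
    have h4 := hsucc (cS + 1)
    have h5 : G ^ (cS + 1 + 1) ≤ Z := hmono (by omega)
    omega
  have e2 : 2 * i ≤ Z := by
    have h4 := hsucc i
    have h5 : G ^ (i + 1) ≤ Z := hmono (by omega)
    have h6 : i < G ^ i := Nat.lt_pow_self hG
    omega
  have e3 : (l ^ c + c + 1) ^ 2 ≤ Z := h3.trans (hmono (by omega))
  have e4 : 2 ≤ Z := by
    have h5 : G ^ 1 ≤ Z := hmono (by omega)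
    rw [pow_one] at h5
    omega
  have e5 : G ^ (2 * E + i + cS + 8) = Z * G ^ 4 := by
    rw [hZ, ← pow_add]
  have e6 : 16 ≤ G ^ 4 := by
    calc 16 = 2 ^ 4 := by norm_num
      _ ≤ G ^ 4 := Nat.pow_le_pow_left hG 4
  have e7 : Z * 16 ≤ Z * G ^ 4 := Nat.mul_le_mul_left _ e6
  rw [e5]
  omega

theorem inst_len (h5 : Pool.Agent.H6.NB.T_COD) (c i : ℕ) (x : List Bool) :
    (inst c i x).length = 2 * x.length + 2 * i + (x.length ^ c + c + 1) ^ 2 + 2 := by
  have := h5.2 x (List.replicate i true) ((x.length ^ c + c + 1) ^ 2)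
  rw [List.length_replicate] at this
  exact this

theorem prob_mono (T : Samp) (O : List Bool → Bool)
    (E E' : Set (List Bool)) (h : ∀ b, T.out b ∈ E → T.out b ∈ E') :
    T.prob O E ≤ T.prob O E' := by
  classical
  simp only [Samp.prob]
  refine Finset.sum_le_sum_of_subset_of_nonneg ?_ fun _ _ _ => by positivity
  intro b hb
  rw [Finset.mem_filter] at hb ⊢
  exact ⟨Finset.mem_univ _, h b hb.2⟩

/-- a code of strings by numbers -/
def enc : List Bool → ℕ
  | [] => 1
  | b :: u => 2 * enc u + b.toNat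

theorem enc_pos (u : List Bool) : 1 ≤ enc u := by
  induction u with
  | nil => exact le_refl _
  | cons b u ih => simp only [enc]; omega

theorem enc_lt (u : List Bool) : enc u < 2 ^ (u.length + 1) := by
  induction u with
  | nil => norm_num [enc]
  | cons b u ih =>
    have h1 : b.toNat ≤ 1 := Bool.toNat_le b
    simp only [enc, List.length_cons]
    rw [pow_succ]
    omega

theorem enc_inj : ∀ u v : List Bool, enc u = enc v → u = v := by
  intro u
  induction u with
  | nil =>
    intro v h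
    cases v with
    | nil => rfl
    | cons b v =>
      have h1 := enc_pos v
      simp only [enc] at h
      omega
  | cons b u ih =>
    intro v h
    cases v with
    | nil =>
      have h1 := enc_pos u
      simp only [enc] at h
      omega
    | cons b' v =>
      simp only [enc] at h
      have h1 : b.toNat ≤ 1 := Bool.toNat_le b
      have h2 : b'.toNat ≤ 1 := Bool.toNat_le b'
      have h3 : enc u = enc v := by omega
      have h4 : b.toNat = b'.toNat := by omega
      rw [ih v h3]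
      congr 1
      cases b <;> cases b' <;> simp_all

/-- the translation of the queries; `tab` is the table of the short ones -/
def fr (c i H : ℕ) (tab : ℕ → Bool) : List Bool → List Bool
  | [] => []
  | false :: u => false :: u
  | true :: u => if (inst c i u).length < H then (if tab (enc u) = true then [true] else [])
      else true :: inst c i u

theorem fr_len (c i H : ℕ) (tab : ℕ → Bool) (w : List Bool) (m : ℕ) (h0 : 1 ≤ m)
    (hw : w.length ≤ m) (hi : ∀ u : List Bool, u.length ≤ w.length → (inst c i u).length + 1 ≤ m) :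
    (fr c i H tab w).length ≤ m := by
  match w with
  | [] => simp [fr]
  | false :: u => exact hw
  | true :: u =>
    simp only [fr]
    split_ifs with h1 h2
    · simpa using h0
    · simp
    · rw [List.length_cons]
      exact hi u (by simp)

theorem fr_join (c i H : ℕ) (tab : ℕ → Bool) (O : List Bool → Bool)
    (L L' : Set (List Bool)) (h0 : [] ∈ L)
    (hs : ∀ u : List Bool, (inst c i u).length < H → (tab (enc u) = true ↔ u ∈ L'))
    (hl : ∀ u : List Bool, H ≤ (inst c i u).length → (u ∈ L' ↔ inst c i u ∈ L)) (w : List Bool) :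
    joinO O L (fr c i H tab w) = joinO O L' w := by
  match w with
  | [] => rfl
  | false :: u => rfl
  | true :: u =>
    simp only [fr]
    split_ifs with h1 h2
    · have h3 := (hs u h1).1 h2
      simp [joinO, h0, h3]
    · have h3 : ¬ u ∈ L' := fun h => h2 ((hs u h1).2 h)
      simp [joinO, h3]
    · have h3 := hl u (by omega)
      simp [joinO, h3]

theorem two_pow_le_gam (n H : ℕ) (h : 4 ^ H < n) : 2 ^ H ≤ gam n := by
  refine Nat.le_sqrt.2 ?_
  have h1 : 2 ^ H * 2 ^ H = 4 ^ H := by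
    rw [← mul_pow]
    norm_num
  omega

theorem fin (h1 : T_UNV) (h2 : T_SEQ) (h3 : T_LIM) (h6 : T_REL) (h4 : T_YEG)
    (h5 : Pool.Agent.H6.NB.T_COD) : Pool.Agent.H70.GS.T_FIN := by
  classical
  intro V Q S hQ hS
  choose cQ CQ εQ hεQ hQ using hQ
  choose cS hS using hS
  choose R hR1 hR2 hR3 hR4 using h6
  let A : ℕ → ℕ → ℕ := fun i j => 2 * ((cS j + 1) * ((V i).2.c + 1)) + i + cS j + 8
  let c : ℕ → ℕ := fun k => 3 * k + 2 + cQ (Nat.unpair k).1 +
    ∑ i ∈ range (k + 1), ∑ j ∈ range (k + 1), A i j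
  have hAc : ∀ k i j, i ≤ k → j ≤ k → A i j ≤ c k := by
    intro k i j hi hj
    have e1 : A i j ≤ ∑ j ∈ range (k + 1), A i j :=
      Finset.single_le_sum (f := fun j => A i j) (fun _ _ => Nat.zero_le _)
        (Finset.mem_range.2 (by omega))
    have e2 : ∑ j ∈ range (k + 1), A i j ≤ ∑ i ∈ range (k + 1), ∑ j ∈ range (k + 1), A i j :=
      Finset.single_le_sum (f := fun i => ∑ j ∈ range (k + 1), A i j) (fun _ _ => Nat.zero_le _)
        (Finset.mem_range.2 (by omega))
    simp only [c]
    omega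
  have hkc : ∀ k, 3 * k + 2 ≤ c k := fun k => by simp only [c]; omega
  have hcQ : ∀ k, cQ (Nat.unpair k).1 ≤ c k := fun k => by simp only [c]; omega
  obtain ⟨n, e, hSP, hLn, hgr, hΦ⟩ := h2 c (fun k => CQ (Nat.unpair k).1) (fun k => k + 1)
    (fun x => 4 ^ ((x + 1) * (x + 1))) (fun k => εQ (Nat.unpair k).1) fun k => hεQ _
  let g : ℕ → ℕ := fun k => gam (n k)
  have hn1 : ∀ k, k + 1 ≤ n k := hLn
  have hgs : ∀ k, g k < g (k + 1) := by
    intro k
    have e1 := (hgr k).2
    have e2 := lt_two_pow_gam (n (k + 1))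
    exact (Nat.pow_lt_pow_iff_right (by norm_num : 1 < 2)).1 (e1.trans e2)
  have hgm : StrictMono g := strictMono_nat_of_lt_succ hgs
  have hgk : ∀ k, k ≤ g k := fun k => hgm.le_apply
  have hg1 : ∀ k, 2 ≤ 2 ^ g k := by
    intro k
    have e1 := lt_two_pow_gam (n k)
    have e2 := hn1 k
    have e3 : n k < 2 ^ g k := e1
    omega
  have hnm : Monotone n := by
    refine monotone_nat_of_le_succ fun k => ?_
    have e1 := (hgr k).2
    have e2 := lt_two_pow_gam (n k)
    omega
  -- the number of quantifiers which is allowed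
  let La : ℕ → ℕ := fun k => 2 ^ (g k * e k)
  let κ : ℕ → ℕ := fun l => if h : ∃ k, l < La k then Nat.find h else l
  let H : ℕ → ℕ := fun K => K + ∑ k ∈ range K, La k
  have hκ1 : ∀ k l, l < La k → κ l ≤ k := by
    intro k l hl
    have h : ∃ k, l < La k := ⟨k, hl⟩
    simp only [κ]
    rw [dif_pos h]
    exact Nat.find_min' h hl
  have hκ2 : ∀ K l, H K ≤ l → K ≤ κ l := by
    intro K l hl
    simp only [H] at hl
    simp only [κ]
    split_ifs with h
    · by_contra hlt
      push Not at hlt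
      have e1 := Nat.find_spec h
      have e2 : La (Nat.find h) ≤ ∑ k ∈ range K, La k :=
        Finset.single_le_sum (f := fun k => La k) (fun _ _ => Nat.zero_le _)
          (Finset.mem_range.2 hlt)
      omega
    · omega
  have hHg : ∀ k, 2 ^ H k ≤ g k := by
    intro k
    cases k with
    | zero =>
      simp only [H, Finset.range_zero, Finset.sum_empty, add_zero, pow_zero]
      have e1 := hg1 0
      by_contra hlt
      push Not at hlt
      have e2 : g 0 = 0 := by omega
      rw [e2] at e1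
      norm_num at e1
    | succ m =>
      refine two_pow_le_gam _ _ (lt_of_le_of_lt ?_ (hΦ m))
      apply Nat.pow_le_pow_right (by norm_num)
      have e1 : ∑ k ∈ range m, La k ≤ m * n m := by
        have := Finset.sum_le_card_nsmul (range m) La (n m) (by
          intro j hj
          rw [Finset.mem_range] at hj
          exact ((hgr j).1.trans_le (hnm (by omega))).le)
        rw [Finset.card_range, smul_eq_mul] at this
        exact this
      have e2 := hn1 m
      have e3 : H (m + 1) = m + 1 + (∑ k ∈ range m, La k + La m) := by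
        simp only [H, Finset.sum_range_succ]
      have e4 : La m = 2 ^ (gam (n m) * e m) := rfl
      rw [e3, ← e4]
      set y := La m with hy
      set z := n m with hz
      have e5 : m * z ≤ z * z := Nat.mul_le_mul_right _ (by omega)
      nlinarith
  obtain ⟨dd, prog, hsm, hdd, hU0, hU⟩ := h1 κ V
  let smp : ℕ → ℕ → ℕ → ℕ → ℕ → (ℕ → Bool) → Samp := fun i i' j l Hk tx =>
    R (S j l) (fr (V i').2.c i' Hk tx) (fun x => inst (V i).2.c i x)
  let ι : ℕ → Type := fun k => Fin (k + 1) × Fin (k + 1) × Fin (k + 1) × Fin (2 ^ g k) ×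
    (Fin (2 ^ H k) → Bool)
  let F : ∀ k, ι k → Samp := fun k p => smp p.1 p.2.1 p.2.2.1 (max (2 ^ g (k - 1)) p.2.2.2.1) (H k)
    (fun x => if h : x < 2 ^ H k then p.2.2.2.2 ⟨x, h⟩ else false)
  have hmax : ∀ k (p : ι k), max (2 ^ g (k - 1)) (p.2.2.2.1 : ℕ) ≤ 2 ^ g k := by
    intro k p
    refine max_le (Nat.pow_le_pow_right (by norm_num) (hgm.monotone (by omega)))
      p.2.2.2.1.isLt.le
  -- the bounds for the samplers
  have hbd : ∀ k i i' j l Hk tx, i ≤ k → i' ≤ k → j ≤ k → l ≤ 2 ^ g k →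
      (smp i i' j l Hk tx).alg.Short (2 ^ (gam (n k) * c k)) ∧
      (smp i i' j l Hk tx).alg.T ≤ 2 ^ (gam (n k) * c k) ∧
      ∀ b, ((smp i i' j l Hk tx).out b).length < 2 ^ (gam (n k) * c k) := by
    intro k i i' j l Hk tx hi hi' hj hl
    obtain ⟨q1, q2, q3⟩ := hS j l
    have hA := hAc k i j hi hj
    have hA' := hAc k i' j hi' hj
    have e0 : 2 ^ (gam (n k) * c k) = (2 ^ g k) ^ c k := by rw [← pow_mul]
    have hG := hg1 k
    have e1 : l ^ cS j + cS j ≤ (2 ^ g k) ^ (cS j + 1) :=
      le_trans (Nat.add_le_add_right (Nat.pow_le_pow_left hl _) _) (bnd _ _ hG)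
    have e2 : (2 ^ g k) ^ (cS j + 1) ≤ (2 ^ g k) ^ c k := by
      refine Nat.pow_le_pow_right (by omega) (le_trans ?_ hA)
      simp only [A]
      omega
    rw [e0]
    refine ⟨?_, ?_, ?_⟩
    · refine hR2 (S j l) _ _ _ fun b w hw => ?_
      have q4 := q1 b w hw
      refine fr_len _ _ _ _ _ _ (Nat.one_le_pow _ _ (by omega)) ((q4.trans e1).trans e2)
        fun u hu => ?_
      have e3 := bnd2 (2 ^ g k) (V i').2.c i' (cS j) u.length hG ((hu.trans q4).trans e1)
      rw [inst_len h5]
      exact le_trans (Nat.succ_le_of_lt e3) (Nat.pow_le_pow_right (by omega) hA')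
    · rw [hR1 (S j l)]
      exact (q2.trans e1).trans e2
    · refine hR3 (S j l) _ _ (fun x => x.length < (2 ^ g k) ^ c k) fun b => ?_
      have e3 := bnd2 (2 ^ g k) (V i).2.c i (cS j)
        ((S j l).out b).length hG ((q3 b).2.trans e1)
      rw [inst_len h5]
      exact lt_of_lt_of_le e3 (Nat.pow_le_pow_right (by omega) hA)
  obtain ⟨σ, χ, O, hB, hD, hO, hL⟩ := h3 dd prog n e c (fun k => CQ (Nat.unpair k).1)
    (fun k => εQ (Nat.unpair k).1) (fun k => Q (Nat.unpair k).1) ι F hsm hSP hgr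
    (by
      intro k s hs
      exact (hdd s).trans (hκ1 k _ hs))
    (by
      intro k x hx
      obtain ⟨q1, q2⟩ := hQ (Nat.unpair k).1 x
      rw [hx] at q1 q2
      refine ⟨short_mono _ _ _ ?_ q1, q2⟩
      have e1 : n k ^ cQ (Nat.unpair k).1 ≤ n k ^ c k :=
        Nat.pow_le_pow_right (by have := hn1 k; omega) (hcQ k)
      have e2 := hcQ k
      omega)
    (by
      intro k
      have e1 : Fintype.card (ι k) =
          (k + 1) * ((k + 1) * ((k + 1) * (2 ^ g k * 2 ^ 2 ^ H k))) := by
        simp only [ι, Fintype.card_prod, Fintype.card_fin, Fintype.card_fun, Fintype.card_bool]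
      rw [e1]
      have e2 : k + 1 ≤ 2 ^ k := Nat.lt_two_pow_self
      have e3 : 2 ^ k ≤ 2 ^ (g k * k) := by
        apply Nat.pow_le_pow_right (by norm_num)
        rcases Nat.eq_zero_or_pos k with h | h
        · rw [h]; simp
        · exact Nat.le_mul_of_pos_left _ (by have := hgk k; omega)
      have e4 : k + 1 ≤ 2 ^ (g k * k) := e2.trans e3
      have e5 : 2 ^ 2 ^ H k ≤ 2 ^ g k := Nat.pow_le_pow_right (by norm_num) (hHg k)
      calc (k + 1) * ((k + 1) * ((k + 1) * (2 ^ g k * 2 ^ 2 ^ H k))) ≤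
            2 ^ (g k * k) * (2 ^ (g k * k) * (2 ^ (g k * k) * (2 ^ g k * 2 ^ g k))) :=
            Nat.mul_le_mul e4 (Nat.mul_le_mul e4 (Nat.mul_le_mul e4 (Nat.mul_le_mul_left _ e5)))
        _ = 2 ^ (g k * (3 * k + 2)) := by
            rw [← pow_add, ← pow_add, ← pow_add, ← pow_add]
            congr 1
            ring
        _ ≤ 2 ^ (g k * c k) :=
            Nat.pow_le_pow_right (by norm_num) (Nat.mul_le_mul_left _ (hkc k)))
    (by
      intro k p
      exact hbd k p.1 p.2.1 p.2.2.1 _ _ _ (by have := p.1.isLt; omega)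
        (by have := p.2.1.isLt; omega) (by have := p.2.2.1.isLt; omega) (hmax k p))
    (by
      intro k p b
      refine hR3 (S (p.2.2.1 : ℕ) (max (2 ^ g k) (p.2.2.2.1 : ℕ))) _ _
        (fun x => 2 ^ gam (n k) ≤ x.length) (fun b => ?_) b
      rw [inst_len h5]
      obtain ⟨_, _, q3⟩ := hS (p.2.2.1 : ℕ) (max (2 ^ g k) (p.2.2.2.1 : ℕ))
      have e2 := (q3 b).1
      have e3 : 2 ^ gam (n k) ≤ max (2 ^ g k) (p.2.2.2.1 : ℕ) := le_max_left _ _
      omega)
  refine ⟨O, hO, ?_, ?_⟩
  · intro j m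
    obtain ⟨x, hx, hx2⟩ := (hL (Nat.pair j m)).1
    rw [Nat.unpair_pair] at hx2
    refine ⟨x, ?_, hx2⟩
    rw [hx]
    have e1 := hn1 (Nat.pair j m)
    have e2 := Nat.right_le_pair j m
    omega
  · intro i i' j a
    filter_upwards [eventually_ge_atTop (H (V i).1),
      eventually_ge_atTop (2 ^ g (i + i' + j + a + (V i').1 + 1))] with n' hn' hn''
    have hex : ∃ k, n' < 2 ^ g k := by
      refine ⟨n', lt_of_lt_of_le Nat.lt_two_pow_self (Nat.pow_le_pow_right (by norm_num) (hgk n'))⟩
    obtain ⟨k, hk1, hk2⟩ : ∃ k, n' < 2 ^ g k ∧ ∀ k' < k, 2 ^ g k' ≤ n' :=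
      ⟨Nat.find hex, Nat.find_spec hex, fun k' hk' => by
        have := Nat.find_min hex hk'
        omega⟩
    have hkK : i + i' + j + a + (V i').1 + 1 < k := by
      have e1 : 2 ^ g (i + i' + j + a + (V i').1 + 1) < 2 ^ g k := lt_of_le_of_lt hn'' hk1
      exact hgm.lt_iff_lt.1 ((Nat.pow_lt_pow_iff_right (by norm_num : 1 < 2)).1 e1)
    have hmx : max (2 ^ g (k - 1)) n' = n' := max_eq_right (hk2 _ (by omega))
    -- the table
    let tb : Fin (2 ^ H k) → Bool := fun x => decide (∃ u : List Bool, enc u = x ∧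
      u ∈ (V i').2.lang O)
    let tx : ℕ → Bool := fun x => if h : x < 2 ^ H k then tb ⟨x, h⟩ else false
    have hF := (hL k).2 (⟨i, by omega⟩, ⟨i', by omega⟩, ⟨j, by omega⟩, ⟨n', hk1⟩, tb)
    have hFe : F k (⟨i, by omega⟩, ⟨i', by omega⟩, ⟨j, by omega⟩, ⟨n', hk1⟩, tb) =
        smp i i' j n' (H k) tx := by
      change smp i i' j (max (2 ^ g (k - 1)) n') (H k) tx = smp i i' j n' (H k) tx
      rw [hmx]
    rw [hFe] at hF
    have hle1 : (S j n').prob (joinO O ((V i').2.lang O)) (Wrong (V i).2 i O) ≤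
        (S j n').prob (joinO O ((V i').2.lang O)) (Wrong (V i).2 i O ∩ {x | n' ≤ x.length}) :=
      prob_mono _ _ _ _ fun b hb => ⟨hb, ((hS j n').2.2 b).1⟩
    have hle2 : (S j n').prob (joinO O ((V i').2.lang O))
        (Wrong (V i).2 i O ∩ {x | n' ≤ x.length}) ≤
        (smp i i' j n' (H k) tx).prob (joinO O {s | accv dd prog s O})
          {s | ¬ (Ae dd prog χ s O ↔ accv dd prog s O)} := by
      refine hR4 (S j n') _ _ _ _ _ _ ?_ ?_
      · intro b w _
        refine fr_join _ _ _ _ _ _ _ (hU0 O) ?_ ?_ w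
        · intro u hu
          have hul : enc u < 2 ^ H k := by
            refine lt_of_lt_of_le (enc_lt u) (Nat.pow_le_pow_right (by norm_num) ?_)
            rw [inst_len h5] at hu
            omega
          simp only [tx]
          rw [dif_pos hul]
          simp only [tb, decide_eq_true_eq]
          constructor
          · rintro ⟨u', hu', hu2⟩
            rw [← enc_inj _ _ hu']
            exact hu2
          · intro h
            exact ⟨u, rfl, h⟩
        · intro u hu
          exact hU i' u O (le_trans (by omega) (hκ2 k _ hu))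
      · intro x hx
        obtain ⟨hw, hxl⟩ := hx
        change ¬ (Ae dd prog χ (inst (V i).2.c i x) O ↔ accv dd prog (inst (V i).2.c i x) O)
        intro hiff
        apply hw
        have hxl' : n' ≤ x.length := hxl
        have hlen : H (V i).1 ≤ (inst (V i).2.c i x).length := by
          rw [inst_len h5]
          omega
        have hu := hU i x O (hκ2 _ _ hlen)
        have hy := h4 (Ae dd prog χ) σ O (inst (V i).2.c i x) hB (hD _)
        exact ⟨fun hx => hy.1 (hiff.2 (hu.1 hx)), fun hx => hy.2 fun hA => hx (hu.2 (hiff.1 hA))⟩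
    refine hle1.trans (hle2.trans (hF.trans ?_))
    have hn0 : 0 < n' := lt_of_lt_of_le (by positivity) hn''
    have hn0R : (0 : ℝ) < (n' : ℝ) ^ a := by positivity
    have hpw : (n' : ℝ) ^ a ≤ 2 ^ (gam (n k) * c k) := by
      have e1 : n' ^ a ≤ 2 ^ (gam (n k) * c k) := by
        calc n' ^ a ≤ (2 ^ g k) ^ a := Nat.pow_le_pow_left hk1.le a
          _ = 2 ^ (g k * a) := by rw [← pow_mul]
          _ ≤ 2 ^ (gam (n k) * c k) := Nat.pow_le_pow_right (by norm_num)
              (Nat.mul_le_mul_left _ (by have := hkc k; omega))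
      exact_mod_cast e1
    rw [div_pow, one_pow]
    exact one_div_le_one_div_of_le hn0R hpw

end Pool.Agent.H4.GS.FIN
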