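import Pool.Agent.H70.GS.Targets

/-!
MP_0f8dca_lc (coarse levels), module IDH: the ideal world is typical.
-/

set_option autoImplicit false

namespace Pool.Agent.H4.GS.IDH

open Finset Pool.Agent.H6.NB Pool.Agent.H70.OQ Pool.Agent.H70.GS

theorem card_inst {α : Type} [Fintype α] (p : α → Prop) (i j : DecidablePred p) :
    (@Finset.filter α p i univ).card = (@Finset.filter α p j univ).card := by
  refine congrArg Finset.card (Finset.ext fun a => ?_)
  rw [@Finset.mem_filter α p i, @Finset.mem_filter α p j]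

section

variable {X B Ω : Type} {nn qb : Ω → ℕ}

theorem vlH_congr (lc : Ω → ℕ) (P : Blk nn qb) (A : B → Bool) (E E' e e' : Ω → Bool)
    (hE : ∀ s, lc s = 0 → E s = E' s) (he : ∀ s, ¬ lc s = 0 → e s = e' s) :
    vlH lc (TH A E) e P = vlH lc (TH A E') e' P := by
  funext c
  cases c with
  | cst b => rfl
  | bas a => rfl
  | key s =>
    simp only [vlH, TH]
    split_ifs with h
    · exact hE s h
    · exact he s h
  | blk s i v => rfl

theorem exG_congr (h3 : T_EXG) (D : Ω → (PosG B Ω nn qb → Bool) → Bool) (lc : Ω → ℕ)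
    (S t d h : ℕ) (hC : Crs D lc S t d h) (P : Blk nn qb) (hL : Lvg (accH lc D P) lc h)
    (A A' : B → Bool) (E E' e e' : Ω → Bool)
    (hE : ∀ s, lc s = 0 → E s = E' s) (he : ∀ s, ¬ lc s = 0 → e s = e' s) :
    ∀ n s, lc s = n → ¬ lc s = 0 →
      exG (accH lc D P) h (TH A E) (TH A' E) e s = exG (accH lc D P) h (TH A E') (TH A' E') e' s := by
  intro n
  induction n using Nat.strong_induction_on with
  | _ n ih =>
    intro s hs h0
    have k1 := (h3 (B ⊕ Ω) Ω (accH lc D P) lc h hL).1
    have e1 : ∀ E e : Ω → Bool, exG (accH lc D P) h (TH A E) (TH A' E) e s =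
        xor (accH lc D P s (TH A' E) (exG (accH lc D P) h (TH A E) (TH A' E) e))
          (thG (accH lc D P) (TH A E) e s) := fun E e => k1 _ _ s
    rw [e1 E e, e1 E' e']
    congr 1
    · refine hC.low s _ _ fun c hc => ?_
      cases c with
      | cst b => rfl
      | bas a => rfl
      | key s' =>
        simp only [vlH, TH]
        split_ifs with h
        · exact hE s' h
        · rcases hc with hc | hc
          · exact ih (lc s') (by omega) s' rfl h
          · exact absurd hc h
      | blk s i v => rfl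
    · simp only [thG]
      rw [he s h0]
      congr 1
      simp only [accH]
      rw [vlH_congr lc P A E E' e e' hE he]

theorem dlG_congr (h3 : T_EXG) (D : Ω → (PosG B Ω nn qb → Bool) → Bool) (lc : Ω → ℕ)
    (S t d h : ℕ) (hC : Crs D lc S t d h) (P : Blk nn qb) (hL : Lvg (accH lc D P) lc h)
    (A A' : B → Bool) (E E' e e' : Ω → Bool)
    (hE : ∀ s, lc s = 0 → E s = E' s) (he : ∀ s, ¬ lc s = 0 → e s = e' s) (s : Ω) :
      dlG (accH lc D P) h (TH A E) (TH A' E) e s = dlG (accH lc D P) h (TH A E') (TH A' E') e' s := by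
  have k1 := (h3 (B ⊕ Ω) Ω (accH lc D P) lc h hL).2.2.1
  rw [k1, k1]
  congr 1
  · simp only [accH]
    rw [vlH_congr lc P A E E' e e' hE he]
  · simp only [accH]
    rw [vlH_congr lc P A' E E' _ (exG (accH lc D P) h (TH A E') (TH A' E') e') hE
      fun s h0 => exG_congr h3 D lc S t d h hC P hL A A' E E' e e' hE he (lc s) s rfl h0]

theorem ty_congr [Fintype X] (h3 : T_EXG) (D : Ω → (PosG B Ω nn qb → Bool) → Bool) (lc : Ω → ℕ)
    (S t d h : ℕ) (hC : Crs D lc S t d h) (P : Blk nn qb) (hL : Lvg (accH lc D P) lc h)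
    (K : ℕ → ℕ) (A : B → Bool) (A' : X → B → Bool) (E E' e e' : Ω → Bool)
    (hE : ∀ s, lc s = 0 → E s = E' s) (he : ∀ s, ¬ lc s = 0 → e s = e' s) :
    TyG (accH lc D P) lc h K h (TH A E) (fun x => TH (A' x) E) e ↔
      TyG (accH lc D P) lc h K h (TH A E') (fun x => TH (A' x) E') e' := by
  have e1 : ∀ s, dsG (accH lc D P) h (TH A E) (fun x => TH (A' x) E) e s =
      dsG (accH lc D P) h (TH A E') (fun x => TH (A' x) E') e' s := by
    intro s
    simp only [dsG]
    exact Finset.filter_congr fun x _ => by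
      rw [dlG_congr h3 D lc S t d h hC P hL A (A' x) E E' e e' hE he s]
  simp only [TyG, e1]

end

theorem idh (h1 : T_IDG) (h2 : T_MEH) (h3 : T_EXG) (h4 : T_FMS) (h5 : Pool.Agent.H6.NB.T_SWA) :
    T_IDH := by
  classical
  intro W X B Ω _ _ _ _ _ nn qb T U D lc S t d h w r k δ δm hC hPrm hbase hδ P
  have hM := h2 B Ω nn qb D lc S t d h hC P
  -- the bound for fixed tables of answers
  have hfix : ∀ E : Ω → Bool, ((univ.filter fun p : W × (Ω → Bool) =>
      ¬ TyG (accH lc D P) lc h k h (TH (T p.1) E) (fun x => TH (U p.1 x) E) p.2).card : ℝ) ≤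
      Fintype.card Ω * (δm * (Fintype.card W * 2 ^ Fintype.card Ω)) := by
    intro E
    refine h1 W X (B ⊕ Ω) Ω (fun p => TH (T p) E) (fun p x => TH (U p x) E) (accH lc D P) lc h S t d
      w r k δ δm hM.1 hM.2 hPrm ?_ hδ
    intro f hf
    have k1 : Fm S (t * 1) d fun y : B → Bool => f (TH y E) := by
      refine h4 (B ⊕ Ω) B S t 1 d f (fun v y => TH y E v) ?_ hf
      intro v
      cases v with
      | inl a => exact ⟨Pool.Agent.H68.AC.DT.node a (.leaf false) (.leaf true), by
          simp [Pool.Agent.H68.AC.DT.depth], fun y => by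
            cases hy : y a <;> simp [Pool.Agent.H68.AC.DT.eval, hy, TH]⟩
      | inr s => exact ⟨Pool.Agent.H68.AC.DT.leaf (E s), by
          simp [Pool.Agent.H68.AC.DT.depth], fun y => rfl⟩
    rw [mul_one] at k1
    have k3 := hbase _ k1
    beta_reduce at k3 ⊢
    exact k3
  -- the bound as a natural number
  set bd : ℝ := Fintype.card Ω * (δm * (Fintype.card W * 2 ^ Fintype.card Ω)) with hbd
  have hbd0 : 0 ≤ bd := le_trans (Nat.cast_nonneg _) (hfix fun _ => false)
  have k2 := h5 W Ω (fun s => lc s = 0) (fun p e E =>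
      ¬ TyG (accH lc D P) lc h k h (TH (T p) E) (fun x => TH (U p x) E) e) 1 (Nat.floor bd) (by
    intro p e e' E E' he hE
    exact not_congr (ty_congr h3 D lc S t d h hC P hM.1 k (T p) (U p) E E' e e' hE he)) (by
    intro E
    rw [mul_one]
    exact Nat.le_floor (le_trans (le_of_eq (congrArg _ (card_inst _ _ _))) (hfix E)))
  rw [mul_one] at k2
  exact le_trans (Nat.cast_le.mpr (le_of_eq_of_le (card_inst _ _ _) k2)) (Nat.floor_le hbd0)

end Pool.Agent.H4.GS.IDH
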